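import Mathlib
import Pool.Agent.R285.BiHardy

/-!
# A two-variable compressed shift whose numerical range is not open
-/

set_option autoImplicit false
set_option linter.all false

namespace Pool.Agent.Results.MP_dfd7ce_an.NotOpen

open Pool.Agent.R285.Ell2 Pool.Agent.R285.BiShift Pool.Agent.R285.BiHardy

/-- `θ` is a rational inner function which is regular on the closed bidisk -/
def IsRegularRIF (θ : ℂ × ℂ → ℂ) : Prop :=
  ∃ p q : MvPolynomial (Fin 2) ℂ,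
    (∀ z : ℂ × ℂ, ‖z.1‖ ≤ 1 → ‖z.2‖ ≤ 1 → MvPolynomial.eval ![z.1, z.2] p ≠ 0) ∧
    (∀ z : ℂ × ℂ, ‖z.1‖ ≤ 1 → ‖z.2‖ ≤ 1 →
      θ z = MvPolynomial.eval ![z.1, z.2] q / MvPolynomial.eval ![z.1, z.2] p) ∧
    ∀ z : ℂ × ℂ, ‖z.1‖ = 1 → ‖z.2‖ = 1 → ‖θ z‖ = 1

/-- `K_θ = H²(𝔻²) ⊖ θ H²(𝔻²)` -/
noncomputable def K (θ : ℂ × ℂ → ℂ) : Submodule ℂ H2 :=
  (Submodule.span ℂ {h : H2 | ∃ g : H2, ∀ z ∈ bidisk, ev h z = θ z * ev g z})ᗮ

/-- `θ` is a product of two functions of one variable on the bidisk -/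
def Splits (θ : ℂ × ℂ → ℂ) : Prop :=
  ∃ B₁ B₂ : ℂ → ℂ, ∀ z ∈ bidisk, θ z = B₁ z.1 * B₂ z.2

/-- bounded operators on `H²(𝔻²)` -/
abbrev Op : Type := H2 →L[ℂ] H2

/-- closed subspaces `S` of `H²(𝔻²)` with `Z S ⊆ S` -/
structure ClosedInvariant (Z : Op) (S : Submodule ℂ H2) : Prop where
  closed : IsClosed (S : Set H2)
  inv : ∀ f ∈ S, Z f ∈ S

/-- `Z₁`, `Z₂` are the multiplications by `z₁`, `z₂` -/
structure AreShifts (Z₁ Z₂ : Op) : Prop where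
  mul₁ : ∀ f, ∀ z ∈ bidisk, ev (Z₁ f) z = z.1 * ev f z
  mul₂ : ∀ f, ∀ z ∈ bidisk, ev (Z₂ f) z = z.2 * ev f z

/-- Agler decompositions of `K_θ`, where `Z₁`, `Z₂` are the multiplications by `z₁`, `z₂` -/
structure IsAglerDecomposition (θ : ℂ × ℂ → ℂ) (Z₁ Z₂ : Op) (S₁ S₂ : Submodule ℂ H2) :
    Prop where
  inv₁ : ClosedInvariant Z₁ S₁
  inv₂ : ClosedInvariant Z₂ S₂
  orth : S₁ ⟂ S₂
  sup : S₁ ⊔ S₂ = K θ

/-- the compression `P_S A|_S` -/
noncomputable def compression (S : Submodule ℂ H2) [S.HasOrthogonalProjection]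
    (A : Op) : S →L[ℂ] S :=
  S.orthogonalProjection ∘L A ∘L S.subtypeL

/-- the numerical range -/
def numericalRange {E : Type*} [NormedAddCommGroup E] [InnerProductSpace ℂ E] (A : E →L[ℂ] E) :
    Set ℂ :=
  {c | ∃ x : E, ‖x‖ = 1 ∧ c = inner ℂ x (A x)}

/-- the numerical range of `P_S A|_S` is not open -/
def NotOpenRange (S : Submodule ℂ H2) (A : Op) : Prop :=
  ∃ _ : S.HasOrthogonalProjection, ¬ IsOpen (numericalRange (compression S A))

/-- the rational inner function -/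
noncomputable def theta (z : ℂ × ℂ) : ℂ :=
  (z.1 ^ 2 * z.2 - 12 / 25 * z.1 + 12 / 25) / (1 - 12 / 25 * z.1 * z.2 + 12 / 25 * z.1 ^ 2 * z.2)

lemma den_ne {z : ℂ × ℂ} (h1 : ‖z.1‖ ≤ 1) (h2 : ‖z.2‖ ≤ 1) :
    1 - 12 / 25 * z.1 * z.2 + 12 / 25 * z.1 ^ 2 * z.2 ≠ 0 := by
  intro h
  have h3 : (1 : ℂ) = 12 / 25 * (z.1 * z.2) - 12 / 25 * (z.1 ^ 2 * z.2) := by
    linear_combination h
  have hc : ‖(12 / 25 : ℂ)‖ = 12 / 25 := by norm_num
  have h4 : ‖z.1 * z.2‖ ≤ 1 := by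
    rw [norm_mul]; exact mul_le_one₀ h1 (norm_nonneg _) h2
  have h5 : ‖z.1 ^ 2 * z.2‖ ≤ 1 := by
    rw [norm_mul, norm_pow]
    exact mul_le_one₀ (pow_le_one₀ (norm_nonneg _) h1) (norm_nonneg _) h2
  have h6 : ‖(1 : ℂ)‖ ≤ 24 / 25 := by
    rw [h3]
    refine (norm_sub_le _ _).trans ?_
    rw [norm_mul (12 / 25) (z.1 * z.2), norm_mul (12 / 25) (z.1 ^ 2 * z.2), hc]
    linarith
  rw [norm_one] at h6
  norm_num at h6

lemma theta_rif : IsRegularRIF theta := by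
  refine ⟨1 - MvPolynomial.C (12 / 25) * MvPolynomial.X 0 * MvPolynomial.X 1 +
      MvPolynomial.C (12 / 25) * MvPolynomial.X 0 ^ 2 * MvPolynomial.X 1,
    MvPolynomial.X 0 ^ 2 * MvPolynomial.X 1 - MvPolynomial.C (12 / 25) * MvPolynomial.X 0 +
      MvPolynomial.C (12 / 25), ?_, ?_, ?_⟩
  · intro z h1 h2
    simpa using den_ne h1 h2
  · intro z h1 h2
    simp [theta]
  · intro z h1 h2
    rw [theta, norm_div, div_eq_one_iff_eq (by rw [Ne, norm_eq_zero]; exact den_ne h1.le h2.le)]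
    have c1 : z.1 * starRingEnd ℂ z.1 = 1 := by
      rw [Complex.mul_conj, Complex.normSq_eq_norm_sq, h1]; norm_num
    have c2 : z.2 * starRingEnd ℂ z.2 = 1 := by
      rw [Complex.mul_conj, Complex.normSq_eq_norm_sq, h2]; norm_num
    have h3 : z.1 ^ 2 * z.2 - 12 / 25 * z.1 + 12 / 25 = z.1 ^ 2 * z.2 *
        starRingEnd ℂ (1 - 12 / 25 * z.1 * z.2 + 12 / 25 * z.1 ^ 2 * z.2) := by
      simp only [map_add, map_sub, map_mul, map_pow, map_one, map_div₀, Complex.conj_ofNat]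
      have e1 : z.1 ^ 2 * z.2 * (1 - 12 / 25 * starRingEnd ℂ z.1 * starRingEnd ℂ z.2 +
          12 / 25 * starRingEnd ℂ z.1 ^ 2 * starRingEnd ℂ z.2) = z.1 ^ 2 * z.2 -
          12 / 25 * z.1 * (z.1 * starRingEnd ℂ z.1) * (z.2 * starRingEnd ℂ z.2) +
          12 / 25 * (z.1 * starRingEnd ℂ z.1) ^ 2 * (z.2 * starRingEnd ℂ z.2) := by ring
      rw [e1, c1, c2]
      ring
    rw [h3, norm_mul, RCLike.norm_conj, norm_mul, norm_pow, h1, h2]
    norm_num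

lemma theta_not_split : ¬ Splits theta := by
  rintro ⟨B₁, B₂, h⟩
  have h0 : ‖(0 : ℂ)‖ < 1 := by simp
  have h2 : ‖(1 / 2 : ℂ)‖ < 1 := by norm_num
  have a := h (0, 0) ⟨h0, h0⟩
  have b := h (1 / 2, 0) ⟨h2, h0⟩
  have c := h (0, 1 / 2) ⟨h0, h2⟩
  have d := h (1 / 2, 1 / 2) ⟨h2, h2⟩
  have e : theta (1 / 2, 0) * theta (0, 1 / 2) = theta (0, 0) * theta (1 / 2, 1 / 2) := by
    rw [a, b, c, d]; ring
  simp only [theta] at e
  norm_num at e

/-! ### the decomposition -/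

/-- the projection onto `S₂` -/
noncomputable def Pi2 : H2 →L[ℂ] H2 := A1 * star A1 + A2 * star A2
/-- the projection onto `S₁` -/
noncomputable def Pi1 : H2 →L[ℂ] H2 := BB * star BB

/-- the subspace `S₂` -/
noncomputable def S2 : Submodule ℂ H2 := LinearMap.ker ((1 - Pi2 : H2 →L[ℂ] H2) : H2 →ₗ[ℂ] H2)
/-- the subspace `S₁` -/
noncomputable def S1 : Submodule ℂ H2 := LinearMap.ker ((1 - Pi1 : H2 →L[ℂ] H2) : H2 →ₗ[ℂ] H2)

lemma mem_S2 (F : H2) : F ∈ S2 ↔ A1 (star A1 F) + A2 (star A2 F) = F := by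
  rw [S2, LinearMap.mem_ker]
  change F - (A1 (star A1 F) + A2 (star A2 F)) = 0 ↔ _
  rw [sub_eq_zero, eq_comm]

lemma mem_S1 (F : H2) : F ∈ S1 ↔ BB (star BB F) = F := by
  rw [S1, LinearMap.mem_ker]
  change F - BB (star BB F) = 0 ↔ _
  rw [sub_eq_zero, eq_comm]

lemma app {S T U : H2 →L[ℂ] H2} (h : S * T = U) (x : H2) : S (T x) = U x := by
  rw [← h]; rfl

lemma S2_closed : IsClosed (S2 : Set H2) := (1 - Pi2 : H2 →L[ℂ] H2).isClosed_ker
lemma S1_closed : IsClosed (S1 : Set H2) := (1 - Pi1 : H2 →L[ℂ] H2).isClosed_ker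

lemma inner_star (A : H2 →L[ℂ] H2) (x y : H2) : inner ℂ x (A y) = inner ℂ (star A x) y :=
  (ContinuousLinearMap.adjoint_inner_left A y x).symm

lemma star_zero_left {A : H2 →L[ℂ] H2} {B : H2 →L[ℂ] H2} (h : star A * B = 0) :
    star B * A = 0 := by
  have := congrArg star h
  rwa [star_mul, star_star, star_zero] at this

lemma A1_mem (f : H2) : A1 f ∈ S2 := by
  rw [mem_S2, app h_AA11, app h_AA21, app h_A1P]
  simp
lemma A2_mem (f : H2) : A2 f ∈ S2 := by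
  rw [mem_S2, app h_AA12, app h_AA22, app h_A2P]
  simp
lemma BB_mem (f : H2) : BB f ∈ S1 := by
  rw [mem_S1, app h_BB, app h_BQ]

lemma S1_perp_S2 : S1 ⟂ S2 := by
  rw [Submodule.isOrtho_iff_inner_eq]
  intro F hF G hG
  have h1 : star A1 F = 0 := by
    rw [← (mem_S1 F).1 hF, app h_A1B]; rfl
  have h2 : star A2 F = 0 := by
    rw [← (mem_S1 F).1 hF, app h_A2B]; rfl
  rw [← (mem_S2 G).1 hG, inner_add_right, inner_star A1 F (star A1 G),
    inner_star A2 F (star A2 G), h1, h2, inner_zero_left, inner_zero_left, add_zero]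

lemma ev_pp (G : H2) {z : ℂ × ℂ} (hz : z ∈ bidisk) :
    ev (pp Z1 Z2 G) z = (1 - 12 / 25 * z.1 * z.2 + 12 / 25 * z.1 ^ 2 * z.2) * ev G z := by
  have h : pp Z1 Z2 G = G - (12 / 25 : ℂ) • Z1 (Z2 G) + (12 / 25 : ℂ) • Z1 (Z1 (Z2 G)) := rfl
  rw [h, ev_add _ _ hz, ev_sub _ _ hz, ev_smul, ev_smul, ev_Z1 _ hz, ev_Z1 _ hz, ev_Z1 _ hz,
    ev_Z2 _ hz]
  ring

lemma ev_pt (G : H2) {z : ℂ × ℂ} (hz : z ∈ bidisk) :
    ev (pt Z1 Z2 G) z = (z.1 ^ 2 * z.2 - 12 / 25 * z.1 + 12 / 25) * ev G z := by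
  have h : pt Z1 Z2 G = Z1 (Z1 (Z2 G)) - (12 / 25 : ℂ) • Z1 G + (12 / 25 : ℂ) • G := rfl
  rw [h, ev_add _ _ hz, ev_sub _ _ hz, ev_smul, ev_smul, ev_Z1 _ hz, ev_Z1 _ hz, ev_Z1 _ hz,
    ev_Z2 _ hz]
  ring

lemma ev_Th (g : H2) {z : ℂ × ℂ} (hz : z ∈ bidisk) : ev (Th g) z = theta z * ev g z := by
  have h1 : ev g z = (1 - 12 / 25 * z.1 * z.2 + 12 / 25 * z.1 ^ 2 * z.2) * ev (RR g) z := by
    rw [← ev_pp _ hz, app RR_spec.2]
    rfl
  have h2 : Th g = pt Z1 Z2 (RR g) := rfl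
  have h3 := den_ne hz.1.le hz.2.le
  have h4 : ∀ N D e : ℂ, D ≠ 0 → N * e = N / D * (D * e) := fun N D e hD => by field_simp
  rw [h2, ev_pt _ hz, theta, h1]
  exact h4 _ _ _ h3

lemma mem_K (x : H2) : x ∈ K theta ↔ star Th x = 0 := by
  constructor
  · intro h
    refine ext_inner_left ℂ fun g => ?_
    have h1 : Th g ∈ {h : H2 | ∃ g : H2, ∀ z ∈ bidisk, ev h z = theta z * ev g z} :=
      ⟨g, fun z hz => ev_Th g hz⟩
    have h2 := Submodule.inner_right_of_mem_orthogonal (Submodule.subset_span h1) h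
    rw [inner_zero_right, ← h2]
    exact ContinuousLinearMap.adjoint_inner_right Th g x
  · intro h
    rw [K, Submodule.mem_orthogonal]
    intro u hu
    induction hu using Submodule.span_induction with
    | mem u hu =>
      obtain ⟨g, hg⟩ := hu
      have h1 : u = Th g := by
        have h2 : u - Th g = 0 := ev_inj _ fun z hz => by
          rw [ev_sub _ _ hz, hg z hz, ev_Th g hz, sub_self]
        exact sub_eq_zero.1 h2
      rw [h1, ← inner_conj_symm, inner_star, h]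
      simp
    | zero => simp
    | add u v _ _ h1 h2 => rw [inner_add_left, h1, h2, add_zero]
    | smul c u _ h1 => rw [inner_smul_left, h1, mul_zero]

lemma sup_eq : S1 ⊔ S2 = K theta := by
  apply le_antisymm
  · refine sup_le (fun F hF => ?_) fun F hF => ?_
    · rw [mem_K, ← (mem_S1 F).1 hF, app h_TB]
      simp
    · rw [mem_K, ← (mem_S2 F).1 hF, map_add, app h_TA1, app h_TA2]
      simp
  · intro x hx
    rw [mem_K] at hx
    have h : Th (star Th x) + A1 (star A1 x) + A2 (star A2 x) + BB (star BB x) = x := by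
      have := app (x := x) (S := Th * star Th + A1 * star A1 + A2 * star A2 + BB * star BB) (T := 1)
        (U := 1) (by rw [h_total, one_mul])
      simpa using this
    rw [hx, map_zero, zero_add] at h
    rw [← h, add_comm]
    exact Submodule.add_mem_sup (BB_mem _) (S2.add_mem (A1_mem _) (A2_mem _))

lemma inv1 (f : H2) (hf : f ∈ S1) : Z1 f ∈ S1 := by
  rw [← (mem_S1 f).1 hf, app h_XB]
  exact BB_mem _

lemma inv2 (f : H2) (hf : f ∈ S2) : Z2 f ∈ S2 := by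
  rw [← (mem_S2 f).1 hf, map_add, app h_YA1, app h_YA2]
  exact S2.add_mem (A1_mem _) (A2_mem _)

/-! ### the numerical range -/

lemma star_P {A : H2 →L[ℂ] H2} (h : A * PP = A) (F : H2) : PP (star A F) = star A F := by
  have h1 : PP * star A = star A := by
    have := congrArg star h
    rwa [star_mul, star_PP] at this
  exact app h1 F

/-- the quadratic form of the compression in coordinates -/
lemma quad (f g : H2) (hf : PP f = f) (hg : PP g = g) :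
    inner ℂ (A1 f + A2 g) (Z1 (A1 f + A2 g)) =
      3 / 5 * inner ℂ (Z2 g) f - 4 / 5 * inner ℂ f g + 12 / 25 * inner ℂ (Z2 g) g := by
  set F := A1 f + A2 g with hF
  have hT : star Th F = 0 := by
    rw [hF, map_add, app h_TA1, app h_TA2]; simp
  have hB : star BB F = 0 := by
    rw [hF, map_add, app h_BA1, app h_BA2]; simp
  have h1 : star A1 F = f := by
    rw [hF, map_add, app h_AA11, app h_AA12, hf]; simp
  have h2 : star A2 F = g := by
    rw [hF, map_add, app h_AA21, app h_AA22, hg]; simp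
  have hZ : Z1 F = (-4 / 5 : ℂ) • Th (PP f) + (3 / 5 : ℂ) • (BB (PP f) + A2 (Z2.adjoint f)) +
      ((9 / 25 : ℂ) • Th (PP g) - (4 / 5 : ℂ) • A1 g +
        (12 / 25 : ℂ) • (BB (PP g) + A2 (Z2.adjoint g))) := by
    rw [hF, map_add, app h_XA1, app h_XA2]
    rfl
  rw [hZ]
  simp only [inner_add_right, inner_sub_right, inner_smul_right]
  rw [inner_star Th F, inner_star Th F, inner_star BB F, inner_star BB F, inner_star A2 F,
    inner_star A2 F, inner_star A1 F, hT, hB, h1, h2, ContinuousLinearMap.adjoint_inner_right,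
    ContinuousLinearMap.adjoint_inner_right]
  simp only [inner_zero_left]
  ring

lemma norm_F (f g : H2) (hf : PP f = f) (hg : PP g = g) :
    ‖A1 f + A2 g‖ ^ 2 = ‖f‖ ^ 2 + ‖g‖ ^ 2 := by
  set F := A1 f + A2 g with hF
  have h1 : star A1 F = f := by
    rw [hF, map_add, app h_AA11, app h_AA12, hf]; simp
  have h2 : star A2 F = g := by
    rw [hF, map_add, app h_AA21, app h_AA22, hg]; simp
  have h3 : inner ℂ F F = inner ℂ f f + inner ℂ g g := by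
    conv_lhs => rw [show inner ℂ F F = inner ℂ F (A1 f + A2 g) from rfl]
    rw [inner_add_right, inner_star A1 F, inner_star A2 F, h1, h2]
  rw [inner_self_eq_norm_sq_to_K, inner_self_eq_norm_sq_to_K, inner_self_eq_norm_sq_to_K] at h3
  exact_mod_cast h3

lemma norm_Z2 (g : H2) : ‖Z2 g‖ ^ 2 = ‖g‖ ^ 2 := by
  rw [← fwd_tsum e2_inj g, norm_sq]
  simp only [Z2_apply]

/-- the key identity -/
lemma key (f g : H2) : 1 / 2 * (‖f‖ ^ 2 + ‖g‖ ^ 2) -
    (3 / 5 * inner ℂ (Z2 g) f - 4 / 5 * inner ℂ f g + 12 / 25 * inner ℂ (Z2 g) g : ℂ).re =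
    1 / 2 * ‖f + (4 / 5 : ℂ) • g - (3 / 5 : ℂ) • Z2 g‖ ^ 2 := by
  have e1 : ‖(4 / 5 : ℂ)‖ = 4 / 5 := by norm_num
  have e2 : ‖(3 / 5 : ℂ)‖ = 3 / 5 := by norm_num
  have m1 : ∀ x : ℂ, ((4 / 5 : ℂ) * x).re = 4 / 5 * x.re := by
    intro x
    rw [show (4 / 5 : ℂ) = ((4 / 5 : ℝ) : ℂ) by push_cast; ring, Complex.re_ofReal_mul]
  have m2 : ∀ x : ℂ, ((3 / 5 : ℂ) * x).re = 3 / 5 * x.re := by
    intro x
    rw [show (3 / 5 : ℂ) = ((3 / 5 : ℝ) : ℂ) by push_cast; ring, Complex.re_ofReal_mul]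
  have m3 : ∀ x : ℂ, ((12 / 25 : ℂ) * x).re = 12 / 25 * x.re := by
    intro x
    rw [show (12 / 25 : ℂ) = ((12 / 25 : ℝ) : ℂ) by push_cast; ring, Complex.re_ofReal_mul]
  have h1 : ‖f + (4 / 5 : ℂ) • g - (3 / 5 : ℂ) • Z2 g‖ ^ 2 = ‖f + (4 / 5 : ℂ) • g‖ ^ 2 -
      2 * (inner ℂ (f + (4 / 5 : ℂ) • g) ((3 / 5 : ℂ) • Z2 g) : ℂ).re +
      ‖(3 / 5 : ℂ) • Z2 g‖ ^ 2 := norm_sub_sq (𝕜 := ℂ) _ _
  have h2 : ‖f + (4 / 5 : ℂ) • g‖ ^ 2 = ‖f‖ ^ 2 + 2 * (inner ℂ f ((4 / 5 : ℂ) • g) : ℂ).re +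
      ‖(4 / 5 : ℂ) • g‖ ^ 2 := norm_add_sq (𝕜 := ℂ) _ _
  have h3 : (inner ℂ (Z2 g) f : ℂ).re = (inner ℂ f (Z2 g) : ℂ).re := inner_re_symm (𝕜 := ℂ) _ _
  have h4 : (inner ℂ (Z2 g) g : ℂ).re = (inner ℂ g (Z2 g) : ℂ).re := inner_re_symm (𝕜 := ℂ) _ _
  have c1 : starRingEnd ℂ (4 / 5 : ℂ) = 4 / 5 := by
    rw [map_div₀, Complex.conj_ofNat, Complex.conj_ofNat]
  rw [h1, h2, inner_smul_right, inner_smul_right, inner_add_left, inner_smul_left, c1, norm_smul,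
    norm_smul, e1, e2, mul_pow, mul_pow, norm_Z2, m1, m2]
  simp only [Complex.add_re, Complex.sub_re, m1, m2, m3, h3, h4]
  ring

lemma re_le (F : H2) (hF : F ∈ S2) : (inner ℂ F (Z1 F) : ℂ).re ≤ 1 / 2 * ‖F‖ ^ 2 := by
  have h := (mem_S2 F).1 hF
  have hf := star_P h_A1P F
  have hg := star_P h_A2P F
  have h1 := quad _ _ hf hg
  have h2 := norm_F _ _ hf hg
  have h3 := key (star A1 F) (star A2 F)
  rw [h] at h1 h2
  rw [h1, h2]
  have h4 : 0 ≤ 1 / 2 * ‖star A1 F + (4 / 5 : ℂ) • star A2 F - (3 / 5 : ℂ) • Z2 (star A2 F)‖ ^ 2 := by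
    positivity
  linarith

/-- the constant function `1` -/
lemma exists_one : ∃ g : H2, PP g = g ∧ g ≠ 0 := by
  classical
  refine ⟨lp.single 2 ((0, 0) : ℕ × ℕ) (1 : ℂ), ?_, ?_⟩
  · have h : Z1.adjoint (lp.single 2 ((0, 0) : ℕ × ℕ) (1 : ℂ)) = 0 := by
      refine lp.ext (funext fun n => ?_)
      rw [Z1_adj, lp.single_apply_ne]
      · rfl
      · intro h
        have := congrArg Prod.fst h
        simp [e1] at this
    change lp.single 2 ((0, 0) : ℕ × ℕ) (1 : ℂ) - Z1 (Z1.adjoint _) = _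
    rw [h, map_zero, sub_zero]
  · intro h
    have h1 := congrArg (fun f : H2 => f (0, 0)) h
    simp only [lp.single_apply_self] at h1
    exact one_ne_zero h1

lemma touch : ∃ F ∈ S2, F ≠ 0 ∧ (inner ℂ F (Z1 F) : ℂ).re = 1 / 2 * ‖F‖ ^ 2 := by
  obtain ⟨g, hg, hg0⟩ := exists_one
  set f : H2 := (3 / 5 : ℂ) • Z2 g - (4 / 5 : ℂ) • g with hf
  have hPY : PP (Z2 g) = Z2 g := by
    have h1 := app (full.YP.symm) g
    rw [h1]
    change Z2 (PP g) = _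
    rw [hg]
  have hPf : PP f = f := by
    rw [hf, map_sub, map_smul, map_smul, hPY, hg]
  refine ⟨A1 f + A2 g, S2.add_mem (A1_mem _) (A2_mem _), ?_, ?_⟩
  · intro h
    have h1 := norm_F f g hPf hg
    rw [h, norm_zero] at h1
    have h2 : 0 < ‖g‖ := norm_pos_iff.2 hg0
    nlinarith [sq_nonneg ‖f‖]
  · rw [quad f g hPf hg, norm_F f g hPf hg]
    have h1 := key f g
    have h2 : f + (4 / 5 : ℂ) • g - (3 / 5 : ℂ) • Z2 g = 0 := by rw [hf]; abel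
    rw [h2, norm_zero] at h1
    linarith

instance : CompleteSpace S2 := S2_closed.completeSpace_coe

/-- **Theorem.** A numerical range `W(S¹_θ)` which is not open, for a rational inner function `θ`
which does not split. -/
theorem result : ∃ θ : ℂ × ℂ → ℂ, IsRegularRIF θ ∧ ¬ Splits θ ∧
    ∃ Z₁ Z₂ : Op, AreShifts Z₁ Z₂ ∧
      ∃ S₁ S₂ : Submodule ℂ H2, IsAglerDecomposition θ Z₁ Z₂ S₁ S₂ ∧ NotOpenRange S₂ Z₁ := by
  refine ⟨theta, theta_rif, theta_not_split, Z1, Z2, ⟨fun f z hz => ev_Z1 f hz,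
    fun f z hz => ev_Z2 f hz⟩, S1, S2,
    ⟨⟨S1_closed, inv1⟩, ⟨S2_closed, inv2⟩, S1_perp_S2, sup_eq⟩, inferInstance, ?_⟩
  have hin : ∀ x : S2, (inner ℂ x (compression S2 Z1 x) : ℂ) = inner ℂ (x : H2) (Z1 x) :=
    fun x => Submodule.inner_orthogonalProjectionOnto_eq_of_mem_left x (Z1 x)
  have hle : ∀ c ∈ numericalRange (compression S2 Z1), c.re ≤ 1 / 2 := by
    rintro c ⟨x, hx, rfl⟩
    rw [hin]
    have h1 := re_le x x.2
    have h2 : ‖(x : H2)‖ = 1 := hx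
    rw [h2] at h1
    linarith
  obtain ⟨F, hF, hF0, hFe⟩ := touch
  have hFn : 0 < ‖F‖ := norm_pos_iff.2 hF0
  set x : S2 := ⟨((‖F‖⁻¹ : ℝ) : ℂ) • F, S2.smul_mem _ hF⟩ with hx
  have hxn : ‖x‖ = 1 := by
    change ‖((‖F‖⁻¹ : ℝ) : ℂ) • F‖ = 1
    rw [norm_smul, Complex.norm_real, norm_inv, norm_norm, inv_mul_cancel₀ hFn.ne']
  have hxr : (inner ℂ x (compression S2 Z1 x) : ℂ).re = 1 / 2 := by
    rw [hin]
    change (inner ℂ (((‖F‖⁻¹ : ℝ) : ℂ) • F) (Z1 (((‖F‖⁻¹ : ℝ) : ℂ) • F)) : ℂ).re = 1 / 2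
    rw [map_smul, inner_smul_left, inner_smul_right, Complex.conj_ofReal, Complex.re_ofReal_mul,
      Complex.re_ofReal_mul, hFe]
    field_simp
  intro hopen
  rw [Metric.isOpen_iff] at hopen
  obtain ⟨ε, hε, hball⟩ := hopen (inner ℂ x (compression S2 Z1 x)) ⟨x, hxn, rfl⟩
  have h1 : (inner ℂ x (compression S2 Z1 x) : ℂ) + ((ε / 2 : ℝ) : ℂ) ∈
      Metric.ball (inner ℂ x (compression S2 Z1 x) : ℂ) ε := by
    rw [Metric.mem_ball, dist_eq_norm, add_sub_cancel_left, Complex.norm_real, Real.norm_eq_abs,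
      abs_of_pos (by positivity)]
    linarith
  have h2 := hle _ (hball h1)
  rw [Complex.add_re, hxr, Complex.ofReal_re] at h2
  linarith

end Pool.Agent.Results.MP_dfd7ce_an.NotOpen
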